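import Pool.Agent.H51.MFQ.S1

/-!
# Board mfq, module POI
-/

set_option autoImplicit false

open Module

namespace Pool.MFQ

namespace PoiN

open MvPolynomial

theorem hasFDerivAt_ev {κ : Type} [Fintype κ] [DecidableEq κ] (p : MvPolynomial κ ℂ) (t : κ → ℂ) :
    HasFDerivAt (fun t : κ → ℂ => eval t p)
      (∑ j, eval t (pderiv j p) • (ContinuousLinearMap.proj j : (κ → ℂ) →L[ℂ] ℂ)) t := by
  induction p using MvPolynomial.induction_on with
  | C a =>
    have h : HasFDerivAt (fun _ : κ → ℂ => a) (0 : (κ → ℂ) →L[ℂ] ℂ) t := hasFDerivAt_const a t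
    have h1 : (fun t : κ → ℂ => eval t (C a)) = fun _ : κ → ℂ => a := by
      funext t
      rw [eval_C]
    rw [h1]
    refine h.congr_fderiv ?_
    ext v
    simp
  | add p q hp hq =>
    have h := hp.add hq
    have h1 : (fun t : κ → ℂ => eval t (p + q)) =
        (fun t : κ → ℂ => eval t p) + fun t : κ → ℂ => eval t q := by
      funext t
      simp
    rw [h1]
    refine h.congr_fderiv ?_
    ext v
    simp only [add_apply, smul_apply, sum_apply, ContinuousLinearMap.proj_apply, smul_eq_mul,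
      map_add, add_mul, Finset.sum_add_distrib]
  | mul_X p i hp =>
    have h1 : HasFDerivAt (fun t : κ → ℂ => t i) (ContinuousLinearMap.proj i : (κ → ℂ) →L[ℂ] ℂ) t :=
      hasFDerivAt_apply i t
    have h2 := hp.mul h1
    have h3 : (fun t : κ → ℂ => eval t (p * X i)) = fun t : κ → ℂ => eval t p * t i := by
      funext t
      rw [map_mul, eval_X]
    rw [h3]
    refine h2.congr_fderiv ?_
    ext v
    simp only [add_apply, smul_apply, sum_apply, ContinuousLinearMap.proj_apply, smul_eq_mul, pderiv_mul,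
      pderiv_X, map_add, map_mul, eval_X, add_mul, Finset.sum_add_distrib, Finset.mul_sum]
    rw [add_comm]
    congr 1
    · exact Finset.sum_congr rfl fun j _ => by ring
    · rw [Finset.sum_eq_single i]
      · rw [Pi.single_eq_same, map_one, mul_one]
      · intro j _ hj
        rw [Pi.single_eq_of_ne hj.symm, map_zero]
        ring
      · intro h
        exact absurd (Finset.mem_univ i) h

theorem fderiv_ev {κ : Type} [Fintype κ] [DecidableEq κ] (p : MvPolynomial κ ℂ) (t v : κ → ℂ) :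
    fderiv ℂ (fun t : κ → ℂ => eval t p) t v = ∑ j, eval t (pderiv j p) * v j := by
  rw [(hasFDerivAt_ev p t).fderiv]
  simp

variable {σ τ : Type} [Fintype σ] [Fintype τ] [DecidableEq σ] [DecidableEq τ]

/-- The polynomial on the dual space. -/
noncomputable def pol (P : Lm σ τ) : MvPolynomial (σ ⊕ τ) ℂ :=
  rename Sum.inl P.1 + ∑ i, rename Sum.inl (P.2 i) * X (Sum.inr i)

omit [Fintype σ] [DecidableEq σ] [DecidableEq τ] in
theorem evT_pol (P : Lm σ τ) : evT P = fun t => eval t (pol P) := by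
  funext t
  unfold evT pol
  simp only [map_add, map_sum, map_mul, eval_rename, eval_X]
  rfl

omit [Fintype σ] in
theorem pd_inl (P : Lm σ τ) (l : σ) (t : σ ⊕ τ → ℂ) :
    eval t (pderiv (Sum.inl l) (pol P)) = eval (fun l => t (Sum.inl l)) (pderiv l P.1) +
      ∑ i, eval (fun l => t (Sum.inl l)) (pderiv l (P.2 i)) * t (Sum.inr i) := by
  unfold pol
  simp only [map_add, map_sum, pderiv_mul, map_mul, eval_X,
    pderiv_rename Sum.inl_injective, eval_rename]
  congr 1
  refine Finset.sum_congr rfl fun i _ => ?_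
  rw [pderiv_X_of_ne (by simp), map_zero, mul_zero, add_zero]
  rfl

omit [Fintype σ] in
theorem pd_inr_rename (φ : MvPolynomial σ ℂ) (j : τ) :
    pderiv (Sum.inr j) (rename (Sum.inl : σ → σ ⊕ τ) φ) = 0 := by
  refine pderiv_eq_zero_of_notMem_vars ?_
  intro h
  have h1 := vars_rename (Sum.inl : σ → σ ⊕ τ) φ h
  rw [Finset.mem_image] at h1
  obtain ⟨a, _, ha⟩ := h1
  exact Sum.inl_ne_inr ha

omit [Fintype σ] in
theorem pd_inr (P : Lm σ τ) (j : τ) (t : σ ⊕ τ → ℂ) :
    eval t (pderiv (Sum.inr j) (pol P)) = eval (fun l => t (Sum.inl l)) (P.2 j) := by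
  unfold pol
  simp only [map_add, map_sum, pderiv_mul, map_mul, eval_X, pd_inr_rename, map_zero, zero_add,
    zero_mul, eval_rename, pderiv_X]
  rw [Finset.sum_eq_single j]
  · rw [Pi.single_eq_same, map_one, mul_one]
    rfl
  · intro i _ hi
    rw [Pi.single_eq_of_ne (fun h => hi (Sum.inr_injective h)), map_zero, mul_zero]
  · intro h
    exact absurd (Finset.mem_univ j) h

theorem der_sum (D : Derivation ℂ (MvPolynomial σ ℂ) (MvPolynomial σ ℂ)) (φ : MvPolynomial σ ℂ) :
    D φ = ∑ m, pderiv m φ * D (X m) := by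
  induction φ using MvPolynomial.induction_on with
  | C a => simp
  | add p q hp hq =>
    rw [map_add, hp, hq, ← Finset.sum_add_distrib]
    exact Finset.sum_congr rfl fun m _ => by rw [map_add, add_mul]
  | mul_X p i hp =>
    rw [Derivation.leibniz, smul_eq_mul, smul_eq_mul, hp]
    simp only [pderiv_mul, add_mul, Finset.sum_add_distrib, pderiv_X]
    rw [add_comm]
    congr 1
    · rw [Finset.mul_sum]
      exact Finset.sum_congr rfl fun m _ => by ring
    · rw [Finset.sum_eq_single i]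
      · rw [Pi.single_eq_same, mul_one]
      · intro j _ hj
        rw [Pi.single_eq_of_ne hj.symm]
        ring
      · intro h
        exact absurd (Finset.mem_univ i) h

variable {𝔤 : Type} [LieRing 𝔤] [LieAlgebra ℂ 𝔤]

omit [DecidableEq σ] [DecidableEq τ] in
theorem opA_apply {κ : Type} [Fintype κ] (b : Basis κ ℂ 𝔤) (i j : κ) (t : κ → ℂ) :
    opA b i t j = ∑ k, b.repr ⁅b i, b j⁆ k * t k := by
  simp [opA, LinearMap.sum_apply]

omit [Fintype τ] [DecidableEq σ] [DecidableEq τ] in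
theorem DD_X (b : Basis (σ ⊕ τ) ℂ 𝔤) (i : τ) (m : σ) (t : σ ⊕ τ → ℂ) :
    eval (fun l => t (Sum.inl l)) (DD b i (X m)) =
      ∑ l, b.repr ⁅b (Sum.inr i), b (Sum.inl m)⁆ (Sum.inl l) * t (Sum.inl l) := by
  unfold DD
  rw [mkDerivation_X]
  simp

omit [DecidableEq σ] [DecidableEq τ] in
theorem op_rl {V : LieIdeal ℂ 𝔤} (b : Basis (σ ⊕ τ) ℂ 𝔤) (hb : Adp V b) (i : τ) (m : σ)
    (t : σ ⊕ τ → ℂ) :
    opA b (Sum.inr i) t (Sum.inl m) = eval (fun l => t (Sum.inl l)) (DD b i (X m)) := by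
  rw [opA_apply, DD_X, Fintype.sum_sum_type]
  have h : ∀ j : τ, b.repr ⁅b (Sum.inr i), b (Sum.inl m)⁆ (Sum.inr j) = 0 := fun j =>
    hb.2 _ (lie_mem_right ℂ 𝔤 V _ _ (hb.1 m)) j
  simp only [h, zero_mul, Finset.sum_const_zero, add_zero]

omit [DecidableEq σ] [DecidableEq τ] in
theorem op_lr {V : LieIdeal ℂ 𝔤} (b : Basis (σ ⊕ τ) ℂ 𝔤) (hb : Adp V b) (l : σ) (j : τ)
    (t : σ ⊕ τ → ℂ) :
    opA b (Sum.inl l) t (Sum.inr j) = - eval (fun l => t (Sum.inl l)) (DD b j (X l)) := by
  rw [← op_rl b hb, opA_apply, opA_apply, ← Finset.sum_neg_distrib]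
  refine Finset.sum_congr rfl fun k _ => ?_
  rw [← lie_skew, map_neg, Finsupp.neg_apply, neg_mul]

omit [DecidableEq σ] [DecidableEq τ] in
theorem op_ll {V : LieIdeal ℂ 𝔤} (hV : IsAb V) (b : Basis (σ ⊕ τ) ℂ 𝔤) (hb : Adp V b) (l m : σ)
    (t : σ ⊕ τ → ℂ) : opA b (Sum.inl l) t (Sum.inl m) = 0 := by
  rw [opA_apply, hV _ (hb.1 l) _ (hb.1 m)]
  simp

omit [DecidableEq σ] [DecidableEq τ] in
theorem op_rr (b : Basis (σ ⊕ τ) ℂ 𝔤) (i j : τ) (t : σ ⊕ τ → ℂ) :
    opA b (Sum.inr i) t (Sum.inr j) = ∑ k, cc b i j k * t (Sum.inr k) +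
      eval (fun l => t (Sum.inl l)) (bb b i j) := by
  rw [opA_apply, Fintype.sum_sum_type, add_comm]
  unfold cc bb
  simp

/-- The derivative along `σ` of a function of `Lm`, paired with a derivation. -/
theorem pair_der (b : Basis (σ ⊕ τ) ℂ 𝔤) (R : Lm σ τ) (j : τ) (t : σ ⊕ τ → ℂ) :
    ∑ l, (eval (fun l => t (Sum.inl l)) (pderiv l R.1) +
      ∑ i, eval (fun l => t (Sum.inl l)) (pderiv l (R.2 i)) * t (Sum.inr i)) *
        eval (fun l => t (Sum.inl l)) (DD b j (X l)) =
    eval (fun l => t (Sum.inl l)) (DD b j R.1) +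
      ∑ k, eval (fun l => t (Sum.inl l)) (DD b j (R.2 k)) * t (Sum.inr k) := by
  have h : ∀ φ : MvPolynomial σ ℂ, eval (fun l => t (Sum.inl l)) (DD b j φ) =
      ∑ l, eval (fun l => t (Sum.inl l)) (pderiv l φ) *
        eval (fun l => t (Sum.inl l)) (DD b j (X l)) := by
    intro φ
    rw [der_sum (DD b j) φ]
    simp only [map_sum, map_mul]
  rw [h R.1]
  simp only [h (R.2 _), add_mul, Finset.sum_add_distrib, Finset.sum_mul]
  congr 1
  rw [Finset.sum_comm]
  refine Finset.sum_congr rfl fun k _ => Finset.sum_congr rfl fun l _ => ?_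
  ring

omit [DecidableEq τ] in
theorem sum_alg (p q a0 b0 : τ → ℂ) (a1 b1 : τ → τ → ℂ) (c : τ → τ → τ → ℂ) (β : τ → τ → ℂ)
    (t : τ → ℂ) :
    -∑ j, q j * (a0 j + ∑ k, a1 j k * t k) +
      ∑ x, p x * (b0 x + ∑ k, b1 x k * t k + ∑ y, q y * (∑ k, c x y k * t k + β x y)) =
    ∑ x, ∑ y, p x * q y * β x y + ∑ x, p x * b0 x - ∑ x, q x * a0 x +
      ∑ k, (∑ x, ∑ y, c x y k * (p x * q y) + ∑ x, p x * b1 x k - ∑ x, q x * a1 x k) * t k := by
  have e1 : ∑ j, q j * (a0 j + ∑ k, a1 j k * t k) =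
      ∑ j, q j * a0 j + ∑ k, (∑ j, q j * a1 j k) * t k := by
    simp only [mul_add, Finset.sum_add_distrib, Finset.mul_sum, Finset.sum_mul]
    congr 1
    rw [Finset.sum_comm]
    exact Finset.sum_congr rfl fun k _ => Finset.sum_congr rfl fun j _ => by ring
  have e2 : ∑ x, p x * (b0 x + ∑ k, b1 x k * t k) =
      ∑ x, p x * b0 x + ∑ k, (∑ x, p x * b1 x k) * t k := by
    simp only [mul_add, Finset.sum_add_distrib, Finset.mul_sum, Finset.sum_mul]
    congr 1
    rw [Finset.sum_comm]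
    exact Finset.sum_congr rfl fun k _ => Finset.sum_congr rfl fun j _ => by ring
  have e3 : ∑ x, p x * ∑ y, q y * (∑ k, c x y k * t k + β x y) =
      ∑ k, (∑ x, ∑ y, c x y k * (p x * q y)) * t k + ∑ x, ∑ y, p x * q y * β x y := by
    simp only [mul_add, Finset.sum_add_distrib, Finset.mul_sum, Finset.sum_mul]
    congr 1
    · rw [Finset.sum_comm' (t' := Finset.univ) (s' := fun _ => Finset.univ) (by simp)]
      rw [Finset.sum_comm]
      rw [Finset.sum_congr rfl fun x _ => Finset.sum_comm, Finset.sum_comm]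
      exact Finset.sum_congr rfl fun k _ => Finset.sum_congr rfl fun x _ =>
        Finset.sum_congr rfl fun y _ => by ring
    · exact Finset.sum_congr rfl fun x _ => Finset.sum_congr rfl fun y _ => by ring
  have e4 : ∑ x, p x * (b0 x + ∑ k, b1 x k * t k + ∑ y, q y * (∑ k, c x y k * t k + β x y)) =
      ∑ x, p x * (b0 x + ∑ k, b1 x k * t k) +
        ∑ x, p x * ∑ y, q y * (∑ k, c x y k * t k + β x y) := by
    rw [← Finset.sum_add_distrib]
    exact Finset.sum_congr rfl fun x _ => by ring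
  rw [e4, e1, e2, e3]
  simp only [sub_mul, add_mul, Finset.sum_add_distrib, Finset.sum_sub_distrib]
  ring

theorem pbE_eq {V : LieIdeal ℂ 𝔤} (hV : IsAb V) (b : Basis (σ ⊕ τ) ℂ 𝔤) (hb : Adp V b)
    (P Q : Lm σ τ) (t : σ ⊕ τ → ℂ) :
    pbE b (evT P) (evT Q) t = evT (brG (DD b) (cc b) (bb b) P Q) t := by
  have hF : ∀ p, fderiv ℂ (evT P) t (Pi.single p 1) = eval t (pderiv p (pol P)) := by
    intro p
    rw [evT_pol, fderiv_ev, Finset.sum_eq_single p]
    · rw [Pi.single_eq_same, mul_one]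
    · intro q _ hq
      rw [Pi.single_eq_of_ne hq, mul_zero]
    · intro h
      exact absurd (Finset.mem_univ p) h
  have hG : ∀ v, fderiv ℂ (evT Q) t v = ∑ q, eval t (pderiv q (pol Q)) * v q := by
    intro v
    rw [evT_pol, fderiv_ev]
  unfold pbE
  simp only [hF, hG, Fintype.sum_sum_type, pd_inl, pd_inr, op_ll hV b hb, op_lr b hb,
    op_rl b hb, op_rr, mul_zero, Finset.sum_const_zero, zero_add]
  have hA : ∑ l, (eval (fun l => t (Sum.inl l)) (pderiv l P.1) +
      ∑ i, eval (fun l => t (Sum.inl l)) (pderiv l (P.2 i)) * t (Sum.inr i)) *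
        ∑ j, eval (fun l => t (Sum.inl l)) (Q.2 j) *
          -eval (fun l => t (Sum.inl l)) (DD b j (X l)) =
      -∑ j, eval (fun l => t (Sum.inl l)) (Q.2 j) *
        (eval (fun l => t (Sum.inl l)) (DD b j P.1) +
          ∑ k, eval (fun l => t (Sum.inl l)) (DD b j (P.2 k)) * t (Sum.inr k)) := by
    simp only [← pair_der b P _ t, Finset.mul_sum]
    rw [Finset.sum_comm, ← Finset.sum_neg_distrib]
    refine Finset.sum_congr rfl fun j _ => ?_
    rw [← Finset.sum_neg_distrib]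
    refine Finset.sum_congr rfl fun l _ => ?_
    ring
  have hB : ∀ i : τ, ∑ l, (eval (fun l => t (Sum.inl l)) (pderiv l Q.1) +
      ∑ i, eval (fun l => t (Sum.inl l)) (pderiv l (Q.2 i)) * t (Sum.inr i)) *
        eval (fun l => t (Sum.inl l)) (DD b i (X l)) =
      eval (fun l => t (Sum.inl l)) (DD b i Q.1) +
      ∑ k, eval (fun l => t (Sum.inl l)) (DD b i (Q.2 k)) * t (Sum.inr k) := fun i =>
    pair_der b Q i t
  rw [hA]
  simp only [hB]
  unfold evT brG dvG
  simp only [map_add, map_sub, map_sum, map_mul, MvPolynomial.smul_eval]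
  exact sum_alg _ _ _ _ (fun j k => eval (fun l => t (Sum.inl l)) (DD b j (P.2 k)))
    (fun j k => eval (fun l => t (Sum.inl l)) (DD b j (Q.2 k))) (cc b)
    (fun i j => eval (fun l => t (Sum.inl l)) (bb b i j)) (fun k => t (Sum.inr k))

omit [DecidableEq σ] [DecidableEq τ] in
theorem evT_inj (P : Lm σ τ) (h : ∀ t, evT P t = 0) : P = 0 := by
  classical
  have h1 : P.1 = 0 := by
    refine MvPolynomial.funext fun x => ?_
    have h2 := h (Sum.elim x 0)
    unfold evT at h2
    simp only [Sum.elim_inl, Sum.elim_inr, Pi.zero_apply, mul_zero, Finset.sum_const_zero,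
      add_zero] at h2
    rw [h2, map_zero]
  refine Prod.ext h1 (_root_.funext fun i => ?_)
  refine MvPolynomial.funext fun x => ?_
  have h2 := h (Sum.elim x (Pi.single i 1))
  unfold evT at h2
  simp only [Sum.elim_inl, Sum.elim_inr, h1, map_zero, zero_add] at h2
  rw [Finset.sum_eq_single i] at h2
  · rw [Pi.single_eq_same, mul_one] at h2
    rw [h2]
    simp
  · intro j _ hj
    rw [Pi.single_eq_of_ne hj, mul_zero]
  · intro h
    exact absurd (Finset.mem_univ i) h

end PoiN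

theorem t_poi : POIStmt := by
  intro 𝔤 _ _ V σ τ _ _ _ _ b P Q hV hb h
  refine PoiN.evT_inj _ fun t => ?_
  rw [← PoiN.pbE_eq hV b hb P Q t]
  exact h t

end Pool.MFQ
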