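import Pool.Agent.H51.MFQ.S1

/-!
# Board mfq, module EXA
-/

set_option autoImplicit false

open Module

namespace Pool.MFQ

namespace ExaN

variable {M : Type} [NormedRing M] [NormedAlgebra ℂ M] [CompleteSpace M]

theorem mul_pow_apply (X B : M) (n : ℕ) :
    ((ContinuousLinearMap.mul ℂ M X) ^ n) B = X ^ n * B := by
  induction n with
  | zero => simp
  | succ n ih =>
    rw [pow_succ', ContinuousLinearMap.mul_apply, ih, ContinuousLinearMap.mul_apply', pow_succ',
      mul_assoc]

theorem flip_pow_apply (X B : M) (n : ℕ) :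
    (((ContinuousLinearMap.mul ℂ M).flip X) ^ n) B = B * X ^ n := by
  induction n with
  | zero => simp
  | succ n ih =>
    rw [pow_succ', ContinuousLinearMap.mul_apply, ih, ContinuousLinearMap.flip_apply,
      ContinuousLinearMap.mul_apply', pow_succ, mul_assoc]

theorem exp_mul_apply (X B : M) :
    NormedSpace.exp (ContinuousLinearMap.mul ℂ M X) B = NormedSpace.exp X * B := by
  have h1 := NormedSpace.exp_series_hasSum_exp' (𝕂 := ℂ) (ContinuousLinearMap.mul ℂ M X)
  have h2 := (ContinuousLinearMap.apply ℂ M B).hasSum h1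
  have h3 := (NormedSpace.exp_series_hasSum_exp' (𝕂 := ℂ) X).mul_right B
  have h4 : (fun n : ℕ => (ContinuousLinearMap.apply ℂ M B)
      (((n.factorial : ℂ)⁻¹) • (ContinuousLinearMap.mul ℂ M X) ^ n)) =
      fun n : ℕ => ((n.factorial : ℂ)⁻¹) • X ^ n * B := by
    funext n
    rw [map_smul, ContinuousLinearMap.apply_apply, mul_pow_apply, smul_mul_assoc]
  rw [h4] at h2
  exact h2.unique h3

theorem exp_flip_apply (X B : M) :
    NormedSpace.exp ((ContinuousLinearMap.mul ℂ M).flip X) B = B * NormedSpace.exp X := by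
  have h1 := NormedSpace.exp_series_hasSum_exp' (𝕂 := ℂ) ((ContinuousLinearMap.mul ℂ M).flip X)
  have h2 := (ContinuousLinearMap.apply ℂ M B).hasSum h1
  have h3 := (NormedSpace.exp_series_hasSum_exp' (𝕂 := ℂ) X).mul_left B
  have h4 : (fun n : ℕ => (ContinuousLinearMap.apply ℂ M B)
      (((n.factorial : ℂ)⁻¹) • ((ContinuousLinearMap.mul ℂ M).flip X) ^ n)) =
      fun n : ℕ => B * (((n.factorial : ℂ)⁻¹) • X ^ n) := by
    funext n
    rw [map_smul, ContinuousLinearMap.apply_apply, flip_pow_apply, mul_smul_comm]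
  rw [h4] at h2
  exact h2.unique h3

theorem exp_mem (D : M →L[ℂ] M) (W : Submodule ℂ M) (hW : ∀ B ∈ W, D B ∈ W)
    (hc : IsClosed (W : Set M)) (B : M) (hB : B ∈ W) : NormedSpace.exp D B ∈ W := by
  have h0 : ∀ n : ℕ, (D ^ n) B ∈ W := by
    intro n
    induction n with
    | zero => simpa using hB
    | succ n ih =>
      rw [pow_succ', ContinuousLinearMap.mul_apply]
      exact hW _ ih
  have h1 := NormedSpace.exp_series_hasSum_exp' (𝕂 := ℂ) D
  have h2 := (ContinuousLinearMap.apply ℂ M B).hasSum h1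
  refine hc.mem_of_tendsto h2 (Filter.Eventually.of_forall fun s => ?_)
  refine W.sum_mem fun n _ => ?_
  simp only [Function.comp_apply, map_smul, ContinuousLinearMap.apply_apply]
  exact W.smul_mem _ (h0 n)

theorem conj_mem (A : M) (W : Submodule ℂ M) (hW : ∀ B ∈ W, A * B - B * A ∈ W)
    (hc : IsClosed (W : Set M)) (s : ℂ) (B : M) (hB : B ∈ W) :
    NormedSpace.exp (s • A) * B * NormedSpace.exp (-(s • A)) ∈ W := by
  let _ : NormedAlgebra ℚ (M →L[ℂ] M) := NormedAlgebra.restrictScalars ℚ ℂ (M →L[ℂ] M)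
  obtain ⟨L, hL⟩ : ∃ L, L = ContinuousLinearMap.mul ℂ M (s • A) := ⟨_, rfl⟩
  obtain ⟨R, hR⟩ : ∃ R, R = (ContinuousLinearMap.mul ℂ M).flip (-(s • A)) := ⟨_, rfl⟩
  have hLR : Commute L R := by
    change L * R = R * L
    ext x
    rw [ContinuousLinearMap.mul_apply, ContinuousLinearMap.mul_apply, hL, hR,
      ContinuousLinearMap.flip_apply, ContinuousLinearMap.flip_apply,
      ContinuousLinearMap.mul_apply', ContinuousLinearMap.mul_apply',
      ContinuousLinearMap.mul_apply', ContinuousLinearMap.mul_apply', mul_assoc]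
  have h1 := NormedSpace.exp_add_of_commute hLR
  have h2 : NormedSpace.exp (s • A) * B * NormedSpace.exp (-(s • A)) =
      NormedSpace.exp (L + R) B := by
    rw [h1, ContinuousLinearMap.mul_apply, hR, exp_flip_apply, hL, exp_mul_apply, mul_assoc]
  rw [h2]
  refine exp_mem (L + R) W ?_ hc B hB
  intro C hC
  have h3 : (L + R) C = s • (A * C - C * A) := by
    rw [ContinuousLinearMap.add_apply, hL, hR, ContinuousLinearMap.flip_apply,
      ContinuousLinearMap.mul_apply', ContinuousLinearMap.mul_apply', smul_mul_assoc, mul_neg,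
      mul_smul_comm, smul_sub, sub_eq_add_neg]
  rw [h3]
  exact W.smul_mem _ (hW C hC)

end ExaN

theorem t_exa : EXAStmt := by
  intro E κ _ _ _ _ A hA i j s
  have : CompleteSpace E := FiniteDimensional.complete ℂ E
  obtain ⟨W, hWd⟩ : ∃ W : Submodule ℂ (E →L[ℂ] E), W = Submodule.span ℂ (Set.range A) := ⟨_, rfl⟩
  have hgen : ∀ j, A j ∈ W := fun j => by
    rw [hWd]
    exact Submodule.subset_span (Set.mem_range_self j)
  have hW : ∀ B ∈ W, A i * B - B * A i ∈ W := by
    intro B hB
    rw [hWd] at hB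
    induction hB using Submodule.span_induction with
    | mem x hx =>
      obtain ⟨j, rfl⟩ := hx
      obtain ⟨c, hc⟩ := hA i j
      have h1 : A i * A j - A j * A i = ∑ k, c k • A k := by
        ext ξ
        rw [ContinuousLinearMap.sub_apply, ContinuousLinearMap.mul_apply,
          ContinuousLinearMap.mul_apply, hc ξ, ContinuousLinearMap.sum_apply]
        rfl
      rw [h1]
      exact W.sum_mem fun k _ => W.smul_mem _ (hgen k)
    | zero => simp
    | add x y _ _ hx hy =>
      have h1 : A i * (x + y) - (x + y) * A i = (A i * x - x * A i) + (A i * y - y * A i) := by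
        noncomm_ring
      rw [h1]
      exact W.add_mem hx hy
    | smul a x _ hx =>
      have h1 : A i * (a • x) - (a • x) * A i = a • (A i * x - x * A i) := by
        rw [mul_smul_comm, smul_mul_assoc, smul_sub]
      rw [h1]
      exact W.smul_mem _ hx
  have hc : IsClosed (W : Set (E →L[ℂ] E)) := Submodule.closed_of_finiteDimensional W
  have h := ExaN.conj_mem (A i) W hW hc s (A j) (hgen j)
  rw [hWd, Submodule.mem_span_range_iff_exists_fun] at h
  obtain ⟨c, hc⟩ := h
  exact ⟨c, hc.symm⟩

end Pool.MFQ
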