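import Pool.Agent.H51.MFQ.S1

/-!
# Board mfq, module STB
-/

set_option autoImplicit false

open Module

namespace Pool.MFQ

namespace StbN

variable {𝔤 : Type} [LieRing 𝔤] [LieAlgebra ℂ 𝔤]

/-- The coadjoint action on `ξ` as a linear map. -/
noncomputable def Φ (ξ : Dual ℂ 𝔤) : 𝔤 →ₗ[ℂ] Dual ℂ 𝔤 where
  toFun := fun x => coad x ξ
  map_add' := fun x y => by
    ext z
    simp [coad]
  map_smul' := fun c x => by
    ext z
    simp [coad]

theorem ker_Φ (ξ : Dual ℂ 𝔤) : LinearMap.ker (Φ ξ) = stab ξ := by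
  ext x
  rw [LinearMap.mem_ker]
  constructor
  · intro h y
    exact DFunLike.congr_fun h y
  · intro h
    ext y
    exact h y

theorem range_Φ [FiniteDimensional ℂ 𝔤] (ξ : Dual ℂ 𝔤) :
    LinearMap.range (Φ ξ) = (stab ξ).dualAnnihilator := by
  refine Submodule.eq_of_le_of_finrank_eq ?_ ?_
  · rintro _ ⟨x, rfl⟩
    rw [Submodule.mem_dualAnnihilator]
    intro y hy
    have h1 : ξ ⁅y, x⁆ = 0 := hy x
    change ξ ⁅x, y⁆ = 0
    rw [← lie_skew, map_neg, h1, neg_zero]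
  · have h1 := LinearMap.finrank_range_add_finrank_ker (Φ ξ)
    rw [ker_Φ] at h1
    have h2 := Subspace.finrank_add_finrank_dualAnnihilator_eq (stab ξ)
    omega

theorem map_NN [FiniteDimensional ℂ 𝔤] {κ : Type} [Fintype κ] (hOPC : OPCStmt)
    (b : Basis κ ℂ 𝔤) (t : κ → ℂ) :
    (NN (opA b) t).map (dualC b : (κ → ℂ) →ₗ[ℂ] Dual ℂ 𝔤) =
      (stab (dualC b t)).dualAnnihilator := by
  rw [← range_Φ, LinearMap.range_eq_map, ← b.span_eq, Submodule.map_span]
  unfold NN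
  rw [Submodule.map_span]
  congr 1
  ext ζ
  simp only [Set.mem_image, Set.mem_range, exists_exists_eq_and]
  constructor
  · rintro ⟨i, rfl⟩
    exact ⟨i, ((hOPC 𝔤 κ b).2.1 i t).symm⟩
  · rintro ⟨i, rfl⟩
    exact ⟨i, (hOPC 𝔤 κ b).2.1 i t⟩

theorem dualC_apply {κ : Type} [Fintype κ] (b : Basis κ ℂ 𝔤) (t : κ → ℂ) (x : 𝔤) :
    dualC b t x = ∑ k, b.repr x k * t k := by
  unfold dualC
  rw [Basis.constr_apply_fintype]
  rfl

theorem dualC_basis {κ : Type} (b : Basis κ ℂ 𝔤) (t : κ → ℂ) (k : κ) :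
    dualC b t (b k) = t k := by
  unfold dualC
  rw [Basis.constr_basis]

theorem map_TT {V : LieIdeal ℂ 𝔤} {σ τ : Type} [Fintype σ] [Fintype τ]
    (b : Basis (σ ⊕ τ) ℂ 𝔤) (hb : Adp V b) :
    (TT σ τ).map (dualC b : (σ ⊕ τ → ℂ) →ₗ[ℂ] Dual ℂ 𝔤) = V.toSubmodule.dualAnnihilator := by
  ext ζ
  rw [Submodule.mem_map, Submodule.mem_dualAnnihilator]
  constructor
  · rintro ⟨t, ht, rfl⟩ x hx
    change dualC b t x = 0
    rw [dualC_apply]
    refine Finset.sum_eq_zero fun k _ => ?_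
    rcases k with l | i
    · have h1 : t (Sum.inl l) = 0 := ht l
      rw [h1, mul_zero]
    · rw [hb.2 x hx i, zero_mul]
  · intro h
    refine ⟨(dualC b).symm ζ, ?_, (dualC b).apply_symm_apply ζ⟩
    intro l
    rw [← dualC_basis b ((dualC b).symm ζ) (Sum.inl l), LinearEquiv.apply_symm_apply]
    exact h _ (hb.1 l)

theorem opA_apply {κ : Type} [Fintype κ] (b : Basis κ ℂ 𝔤) (i j : κ) (t : κ → ℂ) :
    opA b i t j = ∑ k, b.repr ⁅b i, b j⁆ k * t k := by
  simp [opA, LinearMap.sum_apply]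

end StbN

theorem t_stb (hOPC : OPCStmt) : STBStmt := by
  intro 𝔤 _ _ V σ τ _ _ b hb
  have : FiniteDimensional ℂ 𝔤 := Module.Finite.of_basis b
  have hinj : Function.Injective (dualC b : (σ ⊕ τ → ℂ) →ₗ[ℂ] Dual ℂ 𝔤) := (dualC b).injective
  have hinf : ∀ t, (NN (opA b) t ⊓ TT σ τ).map (dualC b : (σ ⊕ τ → ℂ) →ₗ[ℂ] Dual ℂ 𝔤) =
      (stab (dualC b t) ⊔ V.toSubmodule).dualAnnihilator := by
    intro t
    rw [Submodule.map_inf _ hinj, StbN.map_NN hOPC, StbN.map_TT b hb,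
      Submodule.dualAnnihilator_sup_eq]
  refine ⟨?_, ?_, ?_, ?_⟩
  · intro t
    have h1 := LinearEquiv.finrank_map_eq (dualC b) (NN (opA b) t)
    have h2 := Subspace.finrank_add_finrank_dualAnnihilator_eq (stab (dualC b t))
    rw [← StbN.map_NN hOPC] at h2
    omega
  · intro t
    have h1 := LinearEquiv.finrank_map_eq (dualC b) (NN (opA b) t ⊓ TT σ τ)
    have h2 := Subspace.finrank_add_finrank_dualAnnihilator_eq
      (stab (dualC b t) ⊔ V.toSubmodule)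
    rw [← hinf] at h2
    omega
  · intro t t' h
    apply Submodule.map_injective_of_injective hinj
    rw [hinf, hinf, h]
  · intro i t ht l
    rw [StbN.opA_apply]
    refine Finset.sum_eq_zero fun k _ => ?_
    rcases k with m | j
    · have h1 : t (Sum.inl m) = 0 := ht m
      rw [h1, mul_zero]
    · rw [hb.2 _ (lie_mem_right ℂ 𝔤 V _ _ (hb.1 l)) j, zero_mul]

end Pool.MFQ
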